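import Pool.Agent.H65.AD.TargetsB
import Pool.Agent.H49.CN.CNV

/-!
# Almost all discriminants: the bilinear form is diagonal up to coprimality
-/

set_option autoImplicit false

namespace Pool.Agent.H61.AD

open Pool.Agent.H31.CN Pool.Agent.H95.AD Pool.Agent.H50.CN Pool.Agent.H65.AD Pool.Agent.H49.CN

/-- the element of a pair as a sum over the common divisors -/
theorem gel_sum (hG : T_GLE) (n₀ m₁ m₂ : ℕ) (h1 : Squarefree m₁) (h2 : Squarefree m₂)
    (h3 : m₁ ≤ n₀) :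
    ∏ p ∈ (m₁ * m₂).primeFactors, gel (ec 0 (tt p m₁ m₂)) (tt p m₁ m₂) p =
    ∑ d ∈ (Finset.Icc 1 n₀).filter (fun d => Squarefree d),
      if d ∣ m₁ ∧ d ∣ m₂ then (∏ p ∈ d.primeFactors, eo p) *
        ((∏ p ∈ (m₁ / d).primeFactors, al p) * ∏ p ∈ (m₂ / d).primeFactors, al p) else 0 := by
  classical
  rw [← Finset.sum_filter]
  have hka : ∏ p ∈ (m₁ * m₂).primeFactors, gel (ec 0 (tt p m₁ m₂)) (tt p m₁ m₂) p =
      ∏ p ∈ m₁.primeFactors ∪ m₂.primeFactors,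
      (if p ∈ m₁.primeFactors ∧ p ∈ m₂.primeFactors then eo p + al p ^ 2 else al p) := by
    rw [Nat.primeFactors_mul h1.ne_zero h2.ne_zero]
    refine Finset.prod_congr rfl fun p hp => ?_
    have hpp : p.Prime := by
      rcases Finset.mem_union.1 hp with h | h
      · exact Nat.prime_of_mem_primeFactors h
      · exact Nat.prime_of_mem_primeFactors h
    have e1 : p ∈ m₁.primeFactors ↔ p ∣ m₁ :=
      ⟨Nat.dvd_of_mem_primeFactors, fun h => Nat.mem_primeFactors.2 ⟨hpp, h, h1.ne_zero⟩⟩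
    have e2 : p ∈ m₂.primeFactors ↔ p ∣ m₂ :=
      ⟨Nat.dvd_of_mem_primeFactors, fun h => Nat.mem_primeFactors.2 ⟨hpp, h, h2.ne_zero⟩⟩
    obtain ⟨-, g1, g2⟩ := hG.1 p hpp
    rw [Finset.mem_union, e1, e2] at hp
    simp only [e1, e2]
    by_cases d1 : p ∣ m₁
    · by_cases d2 : p ∣ m₂
      · have ht : tt p m₁ m₂ = 2 := by
          unfold tt
          rw [if_pos d1, if_pos d2]
        rw [ht, if_pos ⟨d1, d2⟩, g2]
      · have ht : tt p m₁ m₂ = 1 := by
          unfold tt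
          rw [if_pos d1, if_neg d2]
        rw [ht, if_neg fun h => d2 h.2, g1]
    · have d2 : p ∣ m₂ := hp.resolve_left d1
      have ht : tt p m₁ m₂ = 1 := by
        unfold tt
        rw [if_neg d1, if_pos d2]
      rw [ht, if_neg fun h => d1 h.1, g1]
  rw [hka, ka_expand]
  symm
  refine Finset.sum_bij' (fun d _ => d.primeFactors) (fun T _ => ∏ p ∈ T, p) ?_ ?_ ?_ ?_ ?_
  · intro d hd
    obtain ⟨hd1, hd2, hd3⟩ := Finset.mem_filter.1 hd
    rw [Finset.mem_powerset]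
    exact Finset.subset_inter (Nat.primeFactors_mono hd2 h1.ne_zero)
      (Nat.primeFactors_mono hd3 h2.ne_zero)
  · intro T hT
    rw [Finset.mem_powerset] at hT
    have hT1 := hT.trans Finset.inter_subset_left
    have hT2 := hT.trans Finset.inter_subset_right
    have hd1 : ∏ p ∈ T, p ∣ m₁ :=
      (Finset.prod_dvd_prod_of_subset _ _ _ hT1).trans (Nat.prod_primeFactors_dvd m₁)
    have hd2 : ∏ p ∈ T, p ∣ m₂ :=
      (Finset.prod_dvd_prod_of_subset _ _ _ hT2).trans (Nat.prod_primeFactors_dvd m₂)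
    rw [Finset.mem_filter, Finset.mem_filter, Finset.mem_Icc]
    exact ⟨⟨⟨Nat.pos_of_dvd_of_pos hd1 (Nat.pos_of_ne_zero h1.ne_zero),
      (Nat.le_of_dvd (Nat.pos_of_ne_zero h1.ne_zero) hd1).trans h3⟩,
      h1.squarefree_of_dvd hd1⟩, hd1, hd2⟩
  · intro d hd
    obtain ⟨hd1, hd2, hd3⟩ := Finset.mem_filter.1 hd
    exact Nat.prod_primeFactors_of_squarefree (Finset.mem_filter.1 hd1).2
  · intro T hT
    rw [Finset.mem_powerset] at hT
    exact Nat.primeFactors_prod fun p hp =>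
      Nat.prime_of_mem_primeFactors (Finset.mem_inter.1 (hT hp)).1
  · intro d hd
    obtain ⟨hd1, hd2, hd3⟩ := Finset.mem_filter.1 hd
    rw [pf_div h1 hd2, pf_div h2 hd3]

theorem pf_CNB (hGLE : T_GLE) : T_CNB := by
  classical
  intro c₁ c₂ n₀ hc hn
  have h1 : ∀ m₁ ∈ Finset.Icc 1 n₀, ∀ m₂ ∈ Finset.Icc 1 n₀, (c₁ m₁ * c₂ m₂) •
      ∏ p ∈ (m₁ * m₂).primeFactors, gel (ec 0 (tt p m₁ m₂)) (tt p m₁ m₂) p =
      ∑ d ∈ (Finset.Icc 1 n₀).filter (fun d => Squarefree d),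
        (∏ p ∈ d.primeFactors, eo p) *
        ((if d ∣ m₁ then c₁ m₁ • ∏ p ∈ (m₁ / d).primeFactors, al p else 0) *
        (if d ∣ m₂ then c₂ m₂ • ∏ p ∈ (m₂ / d).primeFactors, al p else 0)) := by
    intro m₁ hm₁ m₂ hm₂
    by_cases hs1 : Squarefree m₁
    swap
    · rw [(hc _ hs1).1]
      simp
    by_cases hs2 : Squarefree m₂
    swap
    · rw [(hc _ hs2).2]
      simp
    rw [gel_sum hGLE n₀ m₁ m₂ hs1 hs2 (Finset.mem_Icc.1 hm₁).2, Finset.smul_sum]
    refine Finset.sum_congr rfl fun d _ => ?_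
    by_cases hd1 : d ∣ m₁
    · by_cases hd2 : d ∣ m₂
      · rw [if_pos ⟨hd1, hd2⟩, if_pos hd1, if_pos hd2, smul_mul_smul_comm, mul_smul_comm]
      · rw [if_neg fun h => hd2 h.2, if_neg hd2, smul_zero, mul_zero, mul_zero]
    · rw [if_neg fun h => hd1 h.1, if_neg hd1, smul_zero, zero_mul, mul_zero]
  rw [Finset.sum_congr rfl (fun m₁ hm₁ => Finset.sum_congr rfl (fun m₂ hm₂ => h1 m₁ hm₁ m₂ hm₂))]
  rw [Finset.sum_congr rfl (fun m₁ _ => Finset.sum_comm), Finset.sum_comm]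
  refine Finset.sum_congr rfl fun d hd => ?_
  have hd1 : 1 ≤ d := (Finset.mem_Icc.1 (Finset.mem_filter.1 hd).1).1
  rw [← inner_sum c₁ n₀ (fun m h => (hc m h).1) (fun m h => (hn m h).1) d hd1,
    ← inner_sum c₂ n₀ (fun m h => (hc m h).2) (fun m h => (hn m h).2) d hd1,
    Finset.sum_filter, Finset.sum_filter, Finset.sum_mul_sum, Finset.mul_sum]
  refine Finset.sum_congr rfl fun m₁ _ => ?_
  rw [Finset.mul_sum]

end Pool.Agent.H61.AD
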