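import Pool.Agent.H95.AD.TargetsU

/-!
(SQE) the mean square of an infinite sum (board `adu_modules`, `MP_347b49_nt`).
-/

set_option autoImplicit false

open MeasureTheory Set Filter
open scoped Real

namespace Pool.Agent.H61.AD

open Pool.Agent.H31.CN Pool.Agent.H95.AD

theorem pf_SQE : T_SQE := by
  intro s a b ha hb hab
  have hconj : ∀ D ∈ s, Summable fun j => ‖(starRingEnd ℂ) (a j D)‖ := by
    intro D hD
    simp only [RCLike.norm_conj]
    exact ha D hD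
  have h1 : ∀ D ∈ s, ((‖∑' i, a i D‖ ^ 2 : ℝ) : ℂ) =
      ∑' z : (ℕ × ℕ) × (ℕ × ℕ), a z.1 D * (starRingEnd ℂ) (a z.2 D) := by
    intro D hD
    have h2 := tsum_mul_tsum_of_summable_norm (ha D hD) (hconj D hD)
    rw [← h2]
    have h3 : ∑' j, (starRingEnd ℂ) (a j D) = (starRingEnd ℂ) (∑' j, a j D) :=
      (Complex.conj_tsum _).symm
    rw [h3, Complex.mul_conj, Complex.normSq_eq_norm_sq]
  have h4 : ((∑ D ∈ s, ‖∑' i, a i D‖ ^ 2 : ℝ) : ℂ) =
      ∑' z : (ℕ × ℕ) × (ℕ × ℕ), ∑ D ∈ s, a z.1 D * (starRingEnd ℂ) (a z.2 D) := by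
    rw [Summable.tsum_finsetSum fun D hD => summable_mul_of_summable_norm (ha D hD) (hconj D hD)]
    rw [Complex.ofReal_sum]
    exact Finset.sum_congr rfl h1
  have h5 : ‖((∑ D ∈ s, ‖∑' i, a i D‖ ^ 2 : ℝ) : ℂ)‖ ≤ ∑' p, b p := by
    rw [h4]
    exact tsum_of_norm_bounded hb.hasSum fun z => hab z.1 z.2
  rw [Complex.norm_real, Real.norm_eq_abs] at h5
  exact (le_abs_self _).trans h5

end Pool.Agent.H61.AD
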